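import Pool.Agent.Helper12.E4.Basic

namespace E4

open Finset

private theorem en_lev_lt : ∀ c : Fin 30, lev c < 26 := by decide

private theorem en_card : ∀ l : Fin 26, (Finset.univ.filter (fun c : Fin 30 => lev c = l.val)).card =
    if l.val = 0 ∨ l.val = 25 then 3 else 1 := by decide

private noncomputable def en_w (l : ℕ) : ℝ := if l = 0 ∨ l = 25 then 12 else 4 / 3

private theorem en_w_pos (l : ℕ) : 0 < en_w l := by
  unfold en_w; split_ifs <;> norm_num

private theorem en_w_sum : ∑ l ∈ Finset.range 26, en_w l = 56 := by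
  simp only [Finset.sum_range_succ, Finset.sum_range_zero, en_w]
  norm_num

theorem en_quad (p : Fin 30 → ℝ) :
    (1 / 56 : ℝ) * (∑ c, p c) ^ 2 ≤ ∑ c, p c ^ 2 -
      (1 / 4 : ℝ) * ∑ l ∈ Finset.range 26, (∑ c ∈ Finset.univ.filter (fun c : Fin 30 => lev c = l), p c) ^ 2 := by
  set P : ℕ → ℝ := fun l => ∑ c ∈ Finset.univ.filter (fun c : Fin 30 => lev c = l), p c with hP
  have hmaps : ∀ c ∈ (Finset.univ : Finset (Fin 30)), lev c ∈ Finset.range 26 := fun c _ =>
    Finset.mem_range.2 (en_lev_lt c)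
  have h1 : ∑ c, p c = ∑ l ∈ Finset.range 26, P l :=
    (Finset.sum_fiberwise_of_maps_to hmaps p).symm
  have h2 : ∑ c, p c ^ 2 = ∑ l ∈ Finset.range 26,
      ∑ c ∈ Finset.univ.filter (fun c : Fin 30 => lev c = l), p c ^ 2 :=
    (Finset.sum_fiberwise_of_maps_to hmaps (fun c => p c ^ 2)).symm
  have h3 : ∀ l ∈ Finset.range 26, P l ^ 2 / en_w l ≤
      ∑ c ∈ Finset.univ.filter (fun c : Fin 30 => lev c = l), p c ^ 2 - 1 / 4 * P l ^ 2 := by
    intro l hl
    have hc := en_card ⟨l, Finset.mem_range.1 hl⟩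
    simp only at hc
    have h4 := sq_sum_le_card_mul_sum_sq (s := Finset.univ.filter (fun c : Fin 30 => lev c = l)) (f := p)
    change P l ^ 2 ≤ _ at h4
    rw [hc] at h4
    unfold en_w
    split_ifs at h4 ⊢ with h5
    · push_cast at h4
      linarith
    · push_cast at h4
      linarith
  have h6 : (∑ l ∈ Finset.range 26, P l) ^ 2 ≤
      (∑ l ∈ Finset.range 26, en_w l) * ∑ l ∈ Finset.range 26, P l ^ 2 / en_w l := by
    apply Finset.sum_sq_le_sum_mul_sum_of_sq_eq_mul
    · intro i _; exact (en_w_pos i).le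
    · intro i _; exact div_nonneg (sq_nonneg _) (en_w_pos i).le
    · intro i _
      have := (en_w_pos i).ne'
      field_simp
  rw [en_w_sum] at h6
  have h7 := Finset.sum_le_sum h3
  rw [Finset.sum_sub_distrib, ← Finset.mul_sum] at h7
  rw [h1, h2]
  linarith

variable {X Q : Type} [DecidableEq X] [DecidableEq Q]

private noncomputable def en_cnt (B : Finset X) (g : X → Q) (l : X → Fin 30) (q : Q) (c : Fin 30) : ℝ :=
  ((B.filter (fun x => g x = q ∧ l x = c)).card : ℝ)

private theorem en_count (B : Finset X) (g : X → Q) (l : X → Fin 30) (R : Fin 30 → Fin 30 → Prop)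
    [DecidableRel R] :
    (((B ×ˢ B).filter (fun p => g p.1 = g p.2 ∧ R (l p.1) (l p.2))).card : ℝ) =
      ∑ q ∈ B.image g, ∑ c, ∑ c', if R c c' then en_cnt B g l q c * en_cnt B g l q c' else 0 := by
  have h := Finset.card_eq_sum_card_fiberwise
    (s := (B ×ˢ B).filter (fun p => g p.1 = g p.2 ∧ R (l p.1) (l p.2)))
    (f := fun p : X × X => (g p.1, l p.1, l p.2))
    (t := (B.image g) ×ˢ ((Finset.univ : Finset (Fin 30)) ×ˢ (Finset.univ : Finset (Fin 30))))
    (by
      intro p hp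
      simp only [Finset.coe_filter, Set.mem_setOf_eq, Finset.mem_product] at hp
      simp only [Finset.coe_product, Set.mem_prod, Finset.mem_coe, Finset.mem_univ, and_true,
        Finset.coe_univ, Set.mem_univ]
      exact Finset.mem_image_of_mem g hp.1.1)
  rw [h, Finset.sum_product]
  push_cast
  refine Finset.sum_congr rfl fun q _ => ?_
  rw [Finset.sum_product]
  refine Finset.sum_congr rfl fun c _ => Finset.sum_congr rfl fun c' _ => ?_
  rw [Finset.filter_filter]
  split_ifs with hR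
  · unfold en_cnt
    rw [← Nat.cast_mul, ← Finset.card_product]
    congr 2
    ext ⟨x, y⟩
    simp only [Finset.mem_filter, Finset.mem_product, Prod.mk.injEq]
    constructor
    · rintro ⟨⟨hx, hy⟩, ⟨hg, _⟩, h1, h2, h3⟩
      exact ⟨⟨hx, h1, h2⟩, hy, hg ▸ h1, h3⟩
    · rintro ⟨⟨hx, h1, h2⟩, hy, h3, h4⟩
      refine ⟨⟨hx, hy⟩, ⟨h1.trans h3.symm, ?_⟩, h1, h2, h4⟩
      rw [h2, h4]; exact hR
  · rw [Nat.cast_eq_zero, Finset.card_eq_zero, Finset.filter_eq_empty_iff]
    rintro ⟨x, y⟩ _ ⟨⟨_, h1⟩, h2⟩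
    simp only [Prod.mk.injEq] at h2
    rw [h2.2.1, h2.2.2] at h1
    exact hR h1

/-- D (file Energy.lean) -/
theorem energy_step (B : Finset X) (g : X → Q) (l : X → Fin 30) :
    (15 / 56 : ℝ) * ((B ×ˢ B).filter (fun p => g p.1 = g p.2)).card ≤
      ((B ×ˢ B).filter (fun p => g p.1 = g p.2 ∧ l p.1 = l p.2)).card +
      (1 / 4 : ℝ) * ((B ×ˢ B).filter (fun p => g p.1 = g p.2 ∧ lev (l p.1) ≠ lev (l p.2))).card := by
  have e1 := en_count B g l (fun _ _ => True)
  have e2 := en_count B g l (fun c c' => c = c')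
  have e3 := en_count B g l (fun c c' => lev c ≠ lev c')
  simp only [and_true, if_true] at e1
  rw [e1, e2, e3, Finset.mul_sum, Finset.mul_sum, ← Finset.sum_add_distrib]
  refine Finset.sum_le_sum fun q _ => ?_
  set p : Fin 30 → ℝ := fun c => en_cnt B g l q c with hp
  have hq := en_quad p
  have a1 : ∑ c, ∑ c', p c * p c' = (∑ c, p c) ^ 2 := by
    rw [sq, Finset.sum_mul_sum]
  have a2 : ∑ c : Fin 30, ∑ c' : Fin 30, (if c = c' then p c * p c' else 0) = ∑ c, p c ^ 2 := by
    refine Finset.sum_congr rfl fun c _ => ?_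
    rw [Finset.sum_ite_eq]
    simp [sq]
  have a3 : ∑ c : Fin 30, ∑ c' : Fin 30, (if lev c ≠ lev c' then p c * p c' else 0) =
      (∑ c, p c) ^ 2 - ∑ l ∈ Finset.range 26,
        (∑ c ∈ Finset.univ.filter (fun c : Fin 30 => lev c = l), p c) ^ 2 := by
    have b1 : ∑ c : Fin 30, ∑ c' : Fin 30, (if lev c ≠ lev c' then p c * p c' else 0) =
        ∑ c : Fin 30, ∑ c' : Fin 30, p c * p c' -
        ∑ c : Fin 30, ∑ c' : Fin 30, (if lev c' = lev c then p c * p c' else 0) := by
      rw [← Finset.sum_sub_distrib]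
      refine Finset.sum_congr rfl fun c _ => ?_
      rw [← Finset.sum_sub_distrib]
      refine Finset.sum_congr rfl fun c' _ => ?_
      by_cases h : lev c = lev c'
      · simp [h]
      · simp [h, Ne.symm h]
    rw [b1, a1]
    congr 1
    rw [← Finset.sum_fiberwise_of_maps_to (s := (Finset.univ : Finset (Fin 30)))
      (t := Finset.range 26) (g := lev) (fun c _ => Finset.mem_range.2 (en_lev_lt c))]
    refine Finset.sum_congr rfl fun k _ => ?_
    rw [sq, Finset.sum_mul_sum]
    refine Finset.sum_congr rfl fun c hc => ?_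
    rw [Finset.mem_filter] at hc
    rw [hc.2, ← Finset.sum_filter]
  change 15 / 56 * ∑ c, ∑ c', p c * p c' ≤
    ∑ c : Fin 30, ∑ c' : Fin 30, (if c = c' then p c * p c' else 0) +
    1 / 4 * ∑ c : Fin 30, ∑ c' : Fin 30, (if lev c ≠ lev c' then p c * p c' else 0)
  rw [a1, a2, a3]
  linarith

end E4
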