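import Pool.Agent.Helper12.E4.Basic

namespace E4

open Finset

/-- E (file Subdiv.lean) -/
theorem sub_count {V : Type} [Fintype V] [DecidableEq V] (T : V → V → Prop) (hT : IsTournament T)
    (k : ℕ) (h : HasSubdivision T k) :
    ∃ (B : Finset V) (L : ℕ), B.card = k ∧ k * k + k + 2 * L ≤ 2 * Fintype.card V ∧
      ∀ (R : V → V → Prop) [DecidableRel R] (W : Finset V), (∀ u v, R u v → R v u) →
        (∀ u v x, R u v → T u v → T v x → T x u → x ∈ W) →
        ((B ×ˢ B).filter (fun p => p.1 ≠ p.2 ∧ R p.1 p.2)).card ≤ 2 * W.card + 2 * L := by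
  classical
  obtain ⟨f, I, hS⟩ := h
  set B : Finset V := Finset.univ.image f with hB
  have hBcard : B.card = k := by
    rw [hB, Finset.card_image_of_injective _ hS.inj, Finset.card_univ, Fintype.card_fin]
  set A : Finset (Fin k × Fin k) := Finset.univ.filter (fun p => T (f p.1) (f p.2)) with hA
  set J : Fin k × Fin k → List V := fun p => I p.2 p.1 with hJ
  have hAne : ∀ p ∈ A, p.1 ≠ p.2 := by
    intro p hp e
    rw [hA, Finset.mem_filter] at hp
    rw [e] at hp
    exact hT.irrefl _ hp.2
  have hAT : ∀ p ∈ A, T (f p.1) (f p.2) := fun p hp => (Finset.mem_filter.1 hp).2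
  have hD : ∀ p ∈ A, completeDigraph k p.2 p.1 := fun p hp => (hAne p hp).symm
  have hTn : ∀ u v, T u v → ¬ T v u := by
    intro u v huv hvu
    by_cases e : u = v
    · subst e; exact hT.irrefl _ huv
    · rcases hT.exactlyOne u v e with h1 | h1
      · exact h1.2 hvu
      · exact h1.2 huv
  have hJne : ∀ p ∈ A, 1 ≤ (J p).length := by
    intro p hp
    by_contra hlen
    have h0 : J p = [] := by
      rw [← List.length_eq_zero_iff]; omega
    have hc := hS.chain p.2 p.1 (hD p hp)
    change List.IsChain T (f p.2 :: (J p ++ [f p.1])) at hc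
    rw [h0] at hc
    simp only [List.nil_append] at hc
    have h1 : T (f p.2) (f p.1) := by
      simpa using hc
    exact hTn _ _ h1 (hAT p hp)
  have hJnd : ∀ p ∈ A, (J p).Nodup := by
    intro p hp
    have hc := hS.nodup p.2 p.1 (hD p hp)
    change (f p.2 :: (J p ++ [f p.1])).Nodup at hc
    exact (List.nodup_append.1 (List.nodup_cons.1 hc).2).1
  have hJcard : ∀ p ∈ A, (J p).toFinset.card = (J p).length := fun p hp =>
    List.toFinset_card_of_nodup (hJnd p hp)
  have hdisj : ∀ p ∈ A, ∀ q ∈ A, p ≠ q → Disjoint (J p).toFinset (J q).toFinset := by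
    intro p hp q hq hpq
    rw [List.disjoint_toFinset_iff_disjoint]
    apply hS.disj p.2 p.1 q.2 q.1 (hD p hp) (hD q hq)
    intro e
    apply hpq
    rw [Prod.mk.injEq] at e
    exact Prod.ext e.2 e.1
  -- the number of pairs
  have hAcard : 2 * A.card + k = k * k := by
    have h1 : A ∪ A.image Prod.swap = (Finset.univ : Finset (Fin k)).offDiag := by
      ext ⟨i, j⟩
      simp only [Finset.mem_union, Finset.mem_image, Finset.mem_offDiag, Finset.mem_univ, true_and]
      constructor
      · rintro (h1 | ⟨q, hq, hq2⟩)
        · exact hAne _ h1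
        · have := hAne q hq
          rw [Prod.swap, Prod.mk.injEq] at hq2
          rw [← hq2.1, ← hq2.2]
          exact this.symm
      · intro hij
        rcases hT.exactlyOne (f i) (f j) (fun e => hij (hS.inj e)) with h1 | h1
        · left
          rw [hA, Finset.mem_filter]
          exact ⟨Finset.mem_univ _, h1.1⟩
        · right
          refine ⟨(j, i), ?_, rfl⟩
          rw [hA, Finset.mem_filter]
          exact ⟨Finset.mem_univ _, h1.1⟩
    have h2 : Disjoint A (A.image Prod.swap) := by
      rw [Finset.disjoint_left]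
      rintro p hp hq
      obtain ⟨q, hq, hq2⟩ := Finset.mem_image.1 hq
      rw [← hq2] at hp
      exact hTn _ _ (hAT q hq) (hAT _ hp)
    have h3 := congrArg Finset.card h1
    rw [Finset.card_union_of_disjoint h2, Finset.card_image_of_injective _ Prod.swap_injective,
      Finset.offDiag_card, Finset.card_univ, Fintype.card_fin] at h3
    have h4 : k ≤ k * k := Nat.le_mul_self k
    omega
  refine ⟨B, (A.filter (fun p => 2 ≤ (J p).length)).card, hBcard, ?_, ?_⟩
  · have h1 : Disjoint B (A.biUnion (fun p => (J p).toFinset)) := by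
      rw [Finset.disjoint_left]
      intro x hx hx2
      obtain ⟨p, hp, hp2⟩ := Finset.mem_biUnion.1 hx2
      obtain ⟨i, _, hi⟩ := Finset.mem_image.1 hx
      exact hS.avoid p.2 p.1 (hD p hp) x (List.mem_toFinset.1 hp2) i hi.symm
    have h2 : (B ∪ A.biUnion (fun p => (J p).toFinset)).card ≤ Fintype.card V :=
      Finset.card_le_univ _
    rw [Finset.card_union_of_disjoint h1, Finset.card_biUnion hdisj, hBcard,
      Finset.sum_congr rfl hJcard] at h2
    have h3 : A.card + (A.filter (fun p => 2 ≤ (J p).length)).card ≤ ∑ p ∈ A, (J p).length := by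
      have h5 : (A.filter (fun p => 2 ≤ (J p).length)).card =
          ∑ p ∈ A, if 2 ≤ (J p).length then 1 else 0 := Finset.card_filter _ _
      have h6 : A.card = ∑ p ∈ A, 1 := Finset.card_eq_sum_ones _
      rw [h5, h6, ← Finset.sum_add_distrib]
      refine Finset.sum_le_sum fun p hp => ?_
      have := hJne p hp
      split_ifs <;> omega
    have h4 := Nat.le_mul_self k
    omega
  · intro R _ W hR hW
    set AR := A.filter (fun p => R (f p.1) (f p.2)) with hAR
    have h1 : ((B ×ˢ B).filter (fun p => p.1 ≠ p.2 ∧ R p.1 p.2)).card = 2 * AR.card := by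
      have h2 : (B ×ˢ B).filter (fun p => p.1 ≠ p.2 ∧ R p.1 p.2) =
          AR.image (fun p => (f p.1, f p.2)) ∪ AR.image (fun p => (f p.2, f p.1)) := by
        ext ⟨u, v⟩
        simp only [Finset.mem_filter, Finset.mem_product, Finset.mem_union, Finset.mem_image,
          Prod.mk.injEq]
        constructor
        · rintro ⟨⟨hu, hv⟩, huv, hRuv⟩
          obtain ⟨i, _, hi⟩ := Finset.mem_image.1 hu
          obtain ⟨j, _, hj⟩ := Finset.mem_image.1 hv
          rcases hT.exactlyOne u v huv with h3 | h3
          · left
            refine ⟨(i, j), ?_, hi, hj⟩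
            rw [hAR, Finset.mem_filter, hA, Finset.mem_filter]
            simp only [hi, hj]
            exact ⟨⟨Finset.mem_univ _, h3.1⟩, hRuv⟩
          · right
            refine ⟨(j, i), ?_, hi, hj⟩
            rw [hAR, Finset.mem_filter, hA, Finset.mem_filter]
            simp only [hi, hj]
            exact ⟨⟨Finset.mem_univ _, h3.1⟩, hR _ _ hRuv⟩
        · rintro (⟨p, hp, hp1, hp2⟩ | ⟨p, hp, hp1, hp2⟩)
          · rw [hAR, Finset.mem_filter] at hp
            refine ⟨⟨?_, ?_⟩, ?_, ?_⟩
            · rw [← hp1]; exact Finset.mem_image_of_mem f (Finset.mem_univ _)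
            · rw [← hp2]; exact Finset.mem_image_of_mem f (Finset.mem_univ _)
            · rw [← hp1, ← hp2]; exact fun e => hAne p hp.1 (hS.inj e)
            · rw [← hp1, ← hp2]; exact hp.2
          · rw [hAR, Finset.mem_filter] at hp
            refine ⟨⟨?_, ?_⟩, ?_, ?_⟩
            · rw [← hp1]; exact Finset.mem_image_of_mem f (Finset.mem_univ _)
            · rw [← hp2]; exact Finset.mem_image_of_mem f (Finset.mem_univ _)
            · rw [← hp1, ← hp2]; exact fun e => hAne p hp.1 (hS.inj e.symm)
            · rw [← hp1, ← hp2]; exact hR _ _ hp.2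
      have h3 : Disjoint (AR.image (fun p => (f p.1, f p.2))) (AR.image (fun p => (f p.2, f p.1))) := by
        rw [Finset.disjoint_left]
        intro x hx hx2
        obtain ⟨p, hp, hp1⟩ := Finset.mem_image.1 hx
        obtain ⟨q, hq, hq1⟩ := Finset.mem_image.1 hx2
        rw [← hp1, Prod.mk.injEq] at hq1
        have h4 := hAT p (Finset.mem_filter.1 hp).1
        have h5 := hAT q (Finset.mem_filter.1 hq).1
        rw [hq1.1, hq1.2] at h5
        exact hTn _ _ h4 h5
      rw [h2, Finset.card_union_of_disjoint h3, Finset.card_image_of_injective,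
        Finset.card_image_of_injective, two_mul]
      · intro p q hpq
        simp only [Prod.mk.injEq] at hpq
        exact Prod.ext (hS.inj hpq.2) (hS.inj hpq.1)
      · intro p q hpq
        simp only [Prod.mk.injEq] at hpq
        exact Prod.ext (hS.inj hpq.1) (hS.inj hpq.2)
    rw [h1]
    set A1 := AR.filter (fun p => ¬ 2 ≤ (J p).length) with hA1
    have hsub : ∀ p ∈ A1, p ∈ A := fun p hp => (Finset.mem_filter.1 (Finset.mem_filter.1 hp).1).1
    have h4 : (A1.biUnion (fun p => (J p).toFinset)) ⊆ W := by
      intro x hx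
      obtain ⟨p, hp, hp2⟩ := Finset.mem_biUnion.1 hx
      have hpA := hsub p hp
      have hl1 := hJne p hpA
      have hl2 := (Finset.mem_filter.1 hp).2
      have hRp : R (f p.1) (f p.2) := (Finset.mem_filter.1 (Finset.mem_filter.1 hp).1).2
      obtain ⟨y, hy⟩ := List.length_eq_one_iff.1 (show (J p).length = 1 by omega)
      have hxy : x = y := by
        have := List.mem_toFinset.1 hp2
        rw [hy] at this
        exact List.mem_singleton.1 this
      have hc := hS.chain p.2 p.1 (hD p hpA)
      change List.IsChain T (f p.2 :: (J p ++ [f p.1])) at hc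
      rw [hy] at hc
      simp only [List.singleton_append] at hc
      have hc2 : T (f p.2) y ∧ T y (f p.1) := by
        simpa using hc
      rw [hxy]
      exact hW (f p.1) (f p.2) y hRp (hAT p hpA) hc2.1 hc2.2
    have h5 : A1.card ≤ W.card := by
      have h6 := Finset.card_le_card h4
      rw [Finset.card_biUnion (fun p hp q hq hpq => hdisj p (hsub p hp) q (hsub q hq) hpq)] at h6
      refine le_trans ?_ h6
      rw [Finset.card_eq_sum_ones]
      refine Finset.sum_le_sum fun p hp => ?_
      rw [hJcard p (hsub p hp)]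
      exact hJne p (hsub p hp)
    have h7 : AR.card = (AR.filter (fun p => 2 ≤ (J p).length)).card + A1.card :=
      (Finset.card_filter_add_card_filter_not _).symm
    have h8 : (AR.filter (fun p => 2 ≤ (J p).length)).card ≤
        (A.filter (fun p => 2 ≤ (J p).length)).card :=
      Finset.card_le_card (Finset.filter_subset_filter _ (Finset.filter_subset _ _))
    omega

end E4
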